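import Mathlib
import Pool.Agent.Q230.EvoF

/-!
# The non-nilpotent complex evolution algebras with condition `P`

Every non-nilpotent complex evolution algebra all of whose subalgebras are evolution subalgebras is
`ES_1 ⊕ C^(n-1)` or `ES_1 ⊕ F ⊕ C^(n-s-1)` with `2 ≤ s ≤ n - 1` and `F` in `ZN^s`, and these algebras
are pairwise non-isomorphic. Here `ES_1` is the algebra `ℂ`, direct sums are products of algebras with
the componentwise operations, and `C^m` is `ZeroAlg m`.

The main step is `Q230.Evo.two_nonzero`: for an invertible complex matrix `A` of size at least two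
the system `x i ^ 2 = ∑ j, A i j * x j` has a solution with at least two nonzero coordinates.
-/

set_option autoImplicit false

universe u v

open Pool.Agent.Q230.Evo

namespace Pool.Agent.Results.MP_fa30b9_al.Classification

/-- **The classification of the non-nilpotent complex evolution algebras with condition `P`.** -/
theorem result :
    -- every non-nilpotent `n`-dimensional evolution algebra with condition `P` is in the list
    (∀ (n : ℕ), 1 ≤ n → ∀ (E : Type u) [NonUnitalNonAssocRing E] [Module ℂ E]
      [IsScalarTower ℂ E E] [SMulCommClass ℂ E E],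
      IsEvolution E n → CondP E n → ¬ Nilp E →
        Iso E (ℂ × ZeroAlg (n - 1)) ∨
        ∃ s, 2 ≤ s ∧ s ≤ n - 1 ∧ ∃ A : Matrix (Fin s) (Fin s) ℂ,
          ZN s (Ev A) ∧ Iso E (ℂ × Ev A × ZeroAlg (n - s - 1))) ∧
    -- the first algebra is not isomorphic to any of the others
    (∀ (k s m : ℕ) (F : Type u) [NonUnitalNonAssocRing F] [Module ℂ F] [IsScalarTower ℂ F F]
      [SMulCommClass ℂ F F], 2 ≤ s → ZN s F → ¬ Iso (ℂ × ZeroAlg k) (ℂ × F × ZeroAlg m)) ∧
    -- the others are pairwise non-isomorphic
    (∀ (s s' m m' : ℕ) (F : Type u) [NonUnitalNonAssocRing F] [Module ℂ F] [IsScalarTower ℂ F F]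
      [SMulCommClass ℂ F F] (F' : Type v) [NonUnitalNonAssocRing F'] [Module ℂ F']
      [IsScalarTower ℂ F' F'] [SMulCommClass ℂ F' F'], 2 ≤ s → 2 ≤ s' → ZN s F → ZN s' F' →
        Iso (ℂ × F × ZeroAlg m) (ℂ × F' × ZeroAlg m') → s = s' ∧ Iso F F') := by
  refine ⟨?_, ?_, ?_⟩
  · intro n _ E _ _ _ _ hE hP hN
    obtain ⟨b, hb⟩ := hE
    exact classify hb hP hN
  · intro k s m F _ _ _ _ hs hF
    exact not_iso hs hF
  · intro s s' m m' F _ _ _ _ F' _ _ _ _ hs hs' hF hF' h
    exact uniq hs hs' hF hF' h

end Pool.Agent.Results.MP_fa30b9_al.Classification
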